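import Mathlib
import Pool.Agent.H759R2.Kad.Props7

/-! Task Q21 of helper759's project (Kadison similarity problem, general case): bound for
homomorphisms of the quotient. -/

open scoped ComplexOrder InnerProductSpace ComplexConjugate
open Finset

noncomputable section

namespace H759R2.Kad

universe u v

theorem q21_mono {B : Type u} [CStarAlgebra B] [PartialOrder B] [StarOrderedRing B] {K : Type v}
    [NormedAddCommGroup K] [InnerProductSpace ℂ K] {w : B →ₗ[ℂ] (K →L[ℂ] K)} {L : ℕ} {γ γ' : ℝ}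
    (h : LvlBd w L γ) (hg : γ ≤ γ') : LvlBd w L γ' := fun Y =>
  (h Y).trans (mul_le_mul_of_nonneg_right hg (norm_nonneg _))

theorem prove7_all (h1 : Q_ftcb.{u, v}) (h2 : Q_rich.{u}) (h3 : Q_trcb.{u, v}) (h4 : Q_notr.{u})
    (h5 : Q_isom.{u, v}) : Q_all.{u, v} := by
  intro A _ hA 𝒰 F _ _ _ q hq H _ _ _ w hw c hc hb m
  have hc0 : 0 ≤ c := by linarith
  by_cases hF : FT (1 : F)
  · refine q21_mono (h1 F hF H w hw c hc hb m) ?_
    have h6 : c ^ 2 ≤ c ^ 25 := pow_le_pow_right₀ hc (by norm_num)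
    have h7 : 0 ≤ c ^ 25 := by positivity
    linarith
  · have hR : Rich F := h2 A hA 𝒰 F q hq hF
    by_cases hτ : ∃ τ : F →ₗ[ℂ] ℂ, IsTracialState τ
    · obtain ⟨τ, hτ⟩ := hτ
      exact h3 F hR τ hτ H w hw c hc hb m
    · obtain ⟨s₁, s₂, hs1, hs2, hs12⟩ := h4 A hA 𝒰 F q hq hτ
      refine q21_mono (h5 F s₁ s₂ hs1 hs2 hs12 H w hw c hc hb m) ?_
      have h6 : c ^ 5 ≤ c ^ 25 := pow_le_pow_right₀ hc (by norm_num)
      have h7 : 0 ≤ c ^ 25 := by positivity
      linarith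

end H759R2.Kad
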